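import Mathlib
import Pool.Agent.H204R3.CM.Defs

/-!
# Several CM types on each of several CM fields: definitions (helper142)
-/

set_option autoImplicit false

namespace Pool.Agent.Run7.h142.JT

open NumberField Pool.Agent.H204R3.CM

/-- The fields `E k` have no rigid pairs of complex embeddings: if `x = (k, φ)` and `y = (l, ψ)` are
complex embeddings of the fields and `y` is neither `x` nor its complex conjugate, then some
automorphism of the complex numbers fixes `φ` and maps `ψ` to its complex conjugate. -/
def NoRigidPairs {κ : Type} (E : κ → Type) [∀ k, Field (E k)] : Prop :=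
  ∀ x y : Σ k, (E k →+* ℂ), y ≠ x → y ≠ ⟨x.1, ComplexEmbedding.conjugate x.2⟩ →
    ∃ τ : ℂ ≃+* ℂ, (τ : ℂ →+* ℂ).comp x.2 = x.2 ∧
      (τ : ℂ →+* ℂ).comp y.2 = ComplexEmbedding.conjugate y.2

open Classical in
/-- The sign function of a CM type: `1` on the embeddings in `Φ`, `-1` on the others. -/
noncomputable def sgnF {F : Type} [Field F] (Φ : Set (F →+* ℂ)) (φ : F →+* ℂ) : ℚ :=
  if φ ∈ Φ then 1 else -1

/-- The fields of a family of CM types: `Φ k a`, `a : I k`, are types on `E k`. -/
abbrev Fam {κ : Type} (E : κ → Type) (I : κ → Type) : (Σ k, I k) → Type := fun p => E p.1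

end Pool.Agent.Run7.h142.JT
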