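import Mathlib
import Pool.Agent.Run7.h142.JT.Defs
import Pool.Agent.W527.CritMain

/-!
# Discriminants and rigid pairs (helper142)
-/

set_option autoImplicit false

namespace Pool.Agent.Run7.h142.JT

open NumberField Module Pool.Agent.H204R3.CM Pool.Agent.H194R3.CM Pool.Agent.H977R3.CM
  Pool.Agent.W527

variable {κ : Type} [Fintype κ] {E : κ → Type} [∀ k, Field (E k)] [∀ k, NumberField (E k)]
  [∀ k, IsCMField (E k)]

/-- If at most three embeddings of all fields are moved, then at most a pair. -/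
theorem only_pair {L : Type} [Field L] [NumberField L] [IsGalois ℚ L] {σ : L ≃ₐ[ℚ] L}
    (hσ : moved E Finset.univ σ < 4) {l : κ} {χ : E l →+* L} (hχ : σ • χ ≠ χ) {m : κ}
    {θ : E m →+* L} (hθ : σ • θ ≠ θ) :
    (⟨m, θ⟩ : Σ k, (E k →+* L)) = ⟨l, χ⟩ ∨ (⟨m, θ⟩ : Σ k, (E k →+* L)) = ⟨l, cbar χ⟩ := by
  classical
  by_contra hcon
  rw [not_or] at hcon
  obtain ⟨h1, h2⟩ := hcon
  have hbar : ∀ {n : κ} {η : E n →+* L}, σ • η ≠ η → σ • cbar η ≠ cbar η := by
    intro n η h3 h4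
    apply h3
    have h5 : cbar (σ • η) = cbar η := h4
    have h6 := congrArg cbar h5
    rw [cbar_cbar, cbar_cbar] at h6
    exact h6
  let M : Finset (Σ k, (E k →+* L)) := Finset.univ.filter fun y => σ • y.2 ≠ y.2
  have hM : M.card = moved E Finset.univ σ := by
    have e1 : M = Finset.univ.sigma (fun k : κ =>
        (Finset.univ.filter fun η : E k →+* L => σ • η ≠ η)) := by
      ext ⟨k, η⟩
      simp [M]
    rw [e1, Finset.card_sigma]
    refine Finset.sum_congr rfl fun k _ => ?_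
    rw [Nat.card_eq_fintype_card, Fintype.card_subtype]
  let bar : (Σ k, (E k →+* L)) → (Σ k, (E k →+* L)) := fun y => ⟨y.1, cbar y.2⟩
  have hbb : ∀ y, bar (bar y) = y := by
    rintro ⟨k, η⟩
    simp only [bar, cbar_cbar]
  have hbn : ∀ y, bar y ≠ y := by
    rintro ⟨k, η⟩ h3
    exact cbar_ne η (eq_of_heq (Sigma.mk.inj h3).2)
  let x : Σ k, (E k →+* L) := ⟨l, χ⟩
  let y : Σ k, (E k →+* L) := ⟨m, θ⟩
  have h3 : y ≠ x := h1
  have h4 : y ≠ bar x := h2
  have h5 : bar y ≠ x := fun h => h4 (by rw [← h, hbb])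
  have h6 : bar y ≠ bar x := fun h => h3 (by rw [← hbb x, ← h, hbb])
  have hsub : ({x, bar x, y, bar y} : Finset (Σ k, (E k →+* L))) ⊆ M := by
    intro z hz
    simp only [Finset.mem_insert, Finset.mem_singleton] at hz
    simp only [M, Finset.mem_filter, Finset.mem_univ, true_and]
    rcases hz with rfl | rfl | rfl | rfl
    · exact hχ
    · exact hbar hχ
    · exact hθ
    · exact hbar hθ
  have hcard : ({x, bar x, y, bar y} : Finset (Σ k, (E k →+* L))).card = 4 := by
    rw [Finset.card_insert_of_notMem, Finset.card_insert_of_notMem,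
      Finset.card_insert_of_notMem, Finset.card_singleton]
    · simp only [Finset.mem_singleton]
      exact fun h => hbn y h.symm
    · simp only [Finset.mem_insert, Finset.mem_singleton, not_or]
      exact ⟨h4.symm, h6.symm⟩
    · simp only [Finset.mem_insert, Finset.mem_singleton, not_or]
      exact ⟨(hbn x).symm, h3.symm, h5.symm⟩
  have := Finset.card_le_card hsub
  omega

theorem noRigidPairs_of_discr (h : ∀ k, ∃ ℓ : ℕ, ℓ.Prime ∧ (ℓ : ℤ) ∣ discr (E k) ∧
    ¬ (ℓ : ℤ) ^ 2 ∣ ∏ l, discr (E l)) : NoRigidPairs E := by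
  classical
  obtain ⟨L, _, _, j, hL⟩ := exists_galois E
  rintro ⟨k, φ⟩ ⟨l, ψ⟩ h1 h2
  change E k →+* ℂ at φ
  change E l →+* ℂ at ψ
  obtain ⟨φ, rfl⟩ := hL k φ
  obtain ⟨ψ, rfl⟩ := hL l ψ
  obtain ⟨ℓ, hℓ, hd, hn⟩ := h l
  obtain ⟨σ, ⟨χ, hχ⟩, h3⟩ := exists_small_one (F := E) (L := L) Finset.univ l (Finset.mem_univ l)
    ⟨ψ⟩ ℓ hℓ hd
  have h4 : moved E Finset.univ σ < 4 := h3 2 hn
  have h5 : σ • χ = cbar χ := by
    have h6 : σ • (σ • χ) ≠ σ • χ := by
      intro h7
      apply hχ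
      have := congrArg (fun η => σ⁻¹ • η) h7
      simpa using this
    rcases only_pair h4 hχ h6 with h7 | h7
    · exact absurd (eq_of_heq (Sigma.mk.inj h7).2) hχ
    · exact eq_of_heq (Sigma.mk.inj h7).2
  obtain ⟨g, rfl⟩ := MulAction.exists_smul_eq (L ≃ₐ[ℚ] L) χ ψ
  obtain ⟨τ, hτ⟩ := exists_lift' j (g * σ * g⁻¹)
  have hinj : ∀ {F : Type} [Field F] (a b : F →+* L), a = b → j.comp a = j.comp b := by
    intro F _ a b hab
    rw [hab]
  refine ⟨τ, ?_, ?_⟩
  · change (τ : ℂ →+* ℂ).comp (j.comp φ) = j.comp φ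
    rw [lifts_comp j hτ]
    apply hinj
    have h8 : σ • (g⁻¹ • φ) = g⁻¹ • φ := by
      by_contra hne
      rcases only_pair h4 hχ hne with h7 | h7
      · obtain ⟨e1, e2⟩ := Sigma.mk.inj h7
        subst e1
        have e3 := eq_of_heq e2
        apply h1
        rw [← e3, smul_inv_smul]
      · obtain ⟨e1, e2⟩ := Sigma.mk.inj h7
        subst e1
        have e3 := eq_of_heq e2
        apply h2
        change (⟨k, j.comp (g • χ)⟩ : Σ k, (E k →+* ℂ)) =
          ⟨k, ComplexEmbedding.conjugate (j.comp φ)⟩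
        rw [← comp_cbar]
        have e4 : cbar φ = g • χ := by
          have e5 : cbar (g⁻¹ • φ) = χ := by rw [e3, cbar_cbar]
          rw [← e5]
          change cbar φ = g • g⁻¹ • cbar φ
          rw [smul_inv_smul]
        rw [e4]
    rw [mul_smul, mul_smul, h8, smul_inv_smul]
  · change (τ : ℂ →+* ℂ).comp (j.comp (g • χ)) = ComplexEmbedding.conjugate (j.comp (g • χ))
    rw [lifts_comp j hτ, ← comp_cbar]
    apply hinj
    rw [mul_smul, mul_smul, inv_smul_smul, h5]
    rfl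

end Pool.Agent.Run7.h142.JT
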