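import Mathlib

/-!
# Relations between translates of matrices of odd functions (helper142)

Finite sets `Y k` with an involution and an action of a finite group `G`; any two points `x`, `y`
with `y ≠ x, x̄` are not rigid: some element of `G` fixes `x` and maps `y` to `ȳ`. Then the
permutation matrices of the elements of `G` on the odd functions span all block matrices.
-/

set_option autoImplicit false

namespace Pool.Agent.Run7.h142.JT

theorem vanish {κ : Type*} [Fintype κ] {G : Type*} [Group G] [Fintype G]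
    (Y : κ → Type*) [∀ k, Fintype (Y k)] [∀ k, MulAction G (Y k)]
    (inv : ∀ k, Y k → Y k) (hne : ∀ k x, inv k x ≠ x)
    (hG : ∀ (g : G) k x, g • inv k x = inv k (g • x))
    (h : ∀ (p q : Σ k, Y k), q ≠ p → q ≠ ⟨p.1, inv p.1 p.2⟩ →
      ∃ g : G, g • p.2 = p.2 ∧ g • q.2 = inv q.1 q.2)
    (A : ∀ k, Y k → Y k → ℤ) (hA1 : ∀ k x y, A k (inv k x) y = -A k x y)
    (hA2 : ∀ k x y, A k x (inv k y) = -A k x y)
    (hrel : ∀ g : G, ∑ p : Σ k, Y k, A p.1 p.2 (g • p.2) = 0) (k₀ : κ) (x₀ y₀ : Y k₀)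
    (ht : ∃ g : G, g • x₀ = y₀) : A k₀ x₀ y₀ = 0 := by
  classical
  let S : Finset G := Finset.univ.filter fun g => g • x₀ = y₀
  let F : (Σ k, Y k) → ℤ := fun p => ∑ g ∈ S, A p.1 p.2 (g • p.2)
  have h0 : ∑ p, F p = 0 := by
    have : ∑ g ∈ S, ∑ p : Σ k, Y k, A p.1 p.2 (g • p.2) = 0 :=
      Finset.sum_eq_zero fun g _ => hrel g
    rw [Finset.sum_comm] at this
    exact this
  have hz : ∀ p : Σ k, Y k, p ≠ ⟨k₀, x₀⟩ → p ≠ ⟨k₀, inv k₀ x₀⟩ → F p = 0 := by
    intro p hp1 hp2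
    obtain ⟨s, hs1, hs2⟩ := h ⟨k₀, x₀⟩ p hp1 hp2
    have e1 : ∑ g ∈ S, A p.1 p.2 ((g * s) • p.2) = ∑ g ∈ S, A p.1 p.2 (g • p.2) := by
      refine Finset.sum_bij (fun g _ => g * s) ?_ ?_ ?_ ?_
      · intro g hg
        simp only [S, Finset.mem_filter, Finset.mem_univ, true_and] at hg ⊢
        rw [mul_smul, hs1, hg]
      · intro a _ b _ hab
        exact mul_right_cancel hab
      · intro b hb
        refine ⟨b * s⁻¹, ?_, by group⟩
        simp only [S, Finset.mem_filter, Finset.mem_univ, true_and] at hb ⊢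
        rw [mul_smul, ← hb]
        congr 1
        rw [inv_smul_eq_iff, hs1]
      · intro g _
        rfl
    have e2 : ∑ g ∈ S, A p.1 p.2 ((g * s) • p.2) = -∑ g ∈ S, A p.1 p.2 (g • p.2) := by
      rw [← Finset.sum_neg_distrib]
      refine Finset.sum_congr rfl fun g _ => ?_
      rw [mul_smul, hs2, hG, hA2]
    have e3 : F p = -F p := e1.symm.trans e2
    omega
  have hab : (⟨k₀, x₀⟩ : Σ k, Y k) ≠ ⟨k₀, inv k₀ x₀⟩ := by
    intro hh
    exact hne k₀ x₀ (eq_of_heq (Sigma.mk.inj hh).2).symm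
  rw [Finset.sum_eq_add (⟨k₀, x₀⟩ : Σ k, Y k) ⟨k₀, inv k₀ x₀⟩ hab (fun p _ hp => hz p hp.1 hp.2)
    (fun hn => absurd (Finset.mem_univ _) hn) (fun hn => absurd (Finset.mem_univ _) hn)] at h0
  have f1 : F ⟨k₀, x₀⟩ = S.card * A k₀ x₀ y₀ := by
    change ∑ g ∈ S, A k₀ x₀ (g • x₀) = _
    rw [Finset.sum_congr rfl (g := fun _ => A k₀ x₀ y₀), Finset.sum_const, nsmul_eq_mul]
    intro g hg
    simp only [S, Finset.mem_filter, Finset.mem_univ, true_and] at hg
    rw [hg]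
  have f2 : F ⟨k₀, inv k₀ x₀⟩ = S.card * A k₀ x₀ y₀ := by
    change ∑ g ∈ S, A k₀ (inv k₀ x₀) (g • inv k₀ x₀) = _
    rw [Finset.sum_congr rfl (g := fun _ => A k₀ x₀ y₀), Finset.sum_const, nsmul_eq_mul]
    intro g hg
    simp only [S, Finset.mem_filter, Finset.mem_univ, true_and] at hg
    rw [hG, hg, hA1, hA2, neg_neg]
  have hS : 0 < S.card := by
    obtain ⟨g, hg⟩ := ht
    exact Finset.card_pos.2 ⟨g, by simp [S, hg]⟩
  rw [f1, f2] at h0
  have h1 : (S.card : ℤ) * A k₀ x₀ y₀ = 0 := by linarith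
  rcases mul_eq_zero.1 h1 with h2 | h2
  · exact absurd (Nat.cast_eq_zero.1 h2) hS.ne'
  · exact h2

end Pool.Agent.Run7.h142.JT
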