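import Mathlib
import Pool.Agent.Run7.h142.JT.Vanish
import Pool.Agent.Run7.h142.JT.Defs
import Pool.Agent.W527.CritMain

/-!
# Independent sign functions on fields without rigid pairs give nondegenerate families (helper142)
-/

set_option autoImplicit false
set_option linter.unusedSectionVars false

namespace Pool.Agent.Run7.h142.JT

open NumberField Module Pool.Agent.H204R3.CM Pool.Agent.H194R3.CM Pool.Agent.H977R3.CM
  Pool.Agent.W527

variable {κ : Type} [Fintype κ] {E : κ → Type} [∀ k, Field (E k)] [∀ k, NumberField (E k)]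
  [∀ k, IsCMField (E k)] {I : κ → Type} [∀ k, Fintype (I k)]
  {L : Type} [Field L] [NumberField L] [IsGalois ℚ L] (j : L →+* ℂ)

theorem conj_comp {F : Type} [Field F] [NumberField F] [IsCMField F] (φ : F →+* L) :
    ComplexEmbedding.conjugate (j.comp φ) = j.comp (cbar φ) := (comp_cbar j φ).symm

theorem jcomp_inj {F : Type} [Field F] {φ ψ : F →+* L} (h : j.comp φ = j.comp ψ) : φ = ψ := by
  ext x
  exact j.injective (RingHom.congr_fun h x)

include j in
/-- The condition on rigid pairs for the embeddings into `L`. -/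
theorem noRigid_L (hE : NoRigidPairs E) (p q : Σ k, (E k →+* L)) (h1 : q ≠ p)
    (h2 : q ≠ ⟨p.1, cbar p.2⟩) :
    ∃ g : L ≃ₐ[ℚ] L, g • p.2 = p.2 ∧ g • q.2 = cbar q.2 := by
  have inj : ∀ p q : Σ k, (E k →+* L), (⟨p.1, j.comp p.2⟩ : Σ k, (E k →+* ℂ)) = ⟨q.1, j.comp q.2⟩ →
      p = q := by
    rintro ⟨k, φ⟩ ⟨l, ψ⟩ h
    obtain ⟨e1, e2⟩ := Sigma.mk.inj h
    change k = l at e1
    subst e1
    have := jcomp_inj j (eq_of_heq e2)
    change φ = ψ at this
    rw [this]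
  obtain ⟨τ, ht1, ht2⟩ := hE ⟨p.1, j.comp p.2⟩ ⟨q.1, j.comp q.2⟩ (fun h => h1 (inj q p h))
    (fun h => h2 (inj q ⟨p.1, cbar p.2⟩ (by
      change (⟨q.1, j.comp q.2⟩ : Σ k, (E k →+* ℂ)) =
        ⟨p.1, ComplexEmbedding.conjugate (j.comp p.2)⟩ at h
      rw [conj_comp] at h
      exact h)))
  obtain ⟨g, hg⟩ := exists_lift j τ
  refine ⟨g, jcomp_inj j ?_, jcomp_inj j ?_⟩
  · rw [← lifts_comp j hg]
    exact ht1
  · rw [← lifts_comp j hg, ← conj_comp]
    exact ht2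

variable {Φ : ∀ k, I k → Set (E k →+* ℂ)}

theorem sgn_conj {F : Type} [Field F] {Ψ : Set (F →+* ℂ)} (hΨ : IsCMType Ψ) (φ : F →+* ℂ) :
    sgnF Ψ (ComplexEmbedding.conjugate φ) = - sgnF Ψ φ := by
  classical
  have h1 := hΨ φ
  unfold sgnF
  by_cases h2 : φ ∈ Ψ
  · rw [if_neg (h1.1 h2), if_pos h2]
  · have h3 : ComplexEmbedding.conjugate φ ∈ Ψ := by
      by_contra h4
      exact h2 (h1.2 h4)
    rw [if_pos h3, if_neg h2, neg_neg]

theorem nondeg_of_indep (hE : NoRigidPairs E) (hΦ : ∀ k a, IsCMType (Φ k a))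
    (h : ∀ k, ∀ ψ : E k →+* ℂ, ∃ φ : E k →+* L, j.comp φ = ψ)
    (hli : ∀ k, LinearIndependent ℚ (fun a : I k => sgnF (Φ k a))) :
    Nondeg (E := Fam E I) (fun p : Σ k, I k => Φ p.1 p.2) j := by
  classical
  intro c hc hrel
  let w : ∀ k, I k → (E k →+* L) → ℤ := fun k a φ => if j.comp φ ∈ Φ k a then 1 else -1
  have hw : ∀ k a φ, w k a (cbar φ) = - w k a φ := fun k a φ => sign_cbar (hΦ k a) j φ
  let A : ∀ k, (E k →+* L) → (E k →+* L) → ℤ := fun k φ ψ => ∑ a : I k, c ⟨k, a⟩ φ * w k a ψ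
  have hA : ∀ k φ ψ, A k φ ψ = 0 := by
    intro k φ ψ
    refine vanish (G := L ≃ₐ[ℚ] L) (fun k => E k →+* L) (fun k => cbar) (fun k x => cbar_ne x)
      (fun g k x => rfl) (fun p q h1 h2 => noRigid_L j hE p q h1 h2) A ?_ ?_ ?_ k φ ψ
      (MulAction.exists_smul_eq (L ≃ₐ[ℚ] L) φ ψ)
    · intro k x y
      change ∑ a : I k, c ⟨k, a⟩ (cbar x) * w k a y = -∑ a : I k, c ⟨k, a⟩ x * w k a y
      rw [← Finset.sum_neg_distrib]
      refine Finset.sum_congr rfl fun a _ => ?_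
      rw [hc, neg_mul]
    · intro k x y
      change ∑ a : I k, c ⟨k, a⟩ x * w k a (cbar y) = -∑ a : I k, c ⟨k, a⟩ x * w k a y
      rw [← Finset.sum_neg_distrib]
      refine Finset.sum_congr rfl fun a _ => ?_
      rw [hw, mul_neg]
    · intro g
      have h1 := hrel g
      rw [Fintype.sum_sigma] at h1 ⊢
      rw [← h1]
      refine Finset.sum_congr rfl fun k _ => ?_
      change ∑ y : E k →+* L, ∑ a : I k, c ⟨k, a⟩ y * w k a (g • y) =
        ∑ a : I k, ∑ y : E k →+* L, c ⟨k, a⟩ y * w k a (g • y)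
      exact Finset.sum_comm
  rintro ⟨k, a⟩ φ
  have h1 := Fintype.linearIndependent_iff.1 (hli k) (fun a => ((c ⟨k, a⟩ φ : ℤ) : ℚ)) (by
    funext ψ
    obtain ⟨ψ', rfl⟩ := h k ψ
    rw [Finset.sum_apply]
    have h2 := congrArg (Int.cast : ℤ → ℚ) (hA k φ ψ')
    rw [Int.cast_zero, Int.cast_sum] at h2
    refine Eq.trans ?_ h2
    refine Finset.sum_congr rfl fun a _ => ?_
    rw [Pi.smul_apply, smul_eq_mul, Int.cast_mul]
    congr 1
    simp only [sgnF, w]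
    split_ifs <;> simp) a
  exact_mod_cast h1

/-- The converse. -/
theorem indep_of_nondeg (hΦ : ∀ k a, IsCMType (Φ k a))
    (h : ∀ k, ∀ ψ : E k →+* ℂ, ∃ φ : E k →+* L, j.comp φ = ψ)
    (hnd : Nondeg (E := Fam E I) (fun p : Σ k, I k => Φ p.1 p.2) j) (k : κ) :
    LinearIndependent ℚ (fun a : I k => sgnF (Φ k a)) := by
  classical
  by_contra hcon
  rw [Fintype.not_linearIndependent_iff] at hcon
  obtain ⟨q, hq, a₀, ha₀⟩ := hcon
  -- integral coefficients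
  obtain ⟨N, hN0, n, hn⟩ : ∃ N : ℤ, N ≠ 0 ∧ ∃ n : I k → ℤ, ∀ a, ((n a : ℤ) : ℚ) = N * q a := by
    obtain ⟨b, hb⟩ := IsLocalization.exist_integer_multiples_of_finset (nonZeroDivisors ℤ)
      (Finset.univ.image q)
    refine ⟨b, nonZeroDivisors.coe_ne_zero b, ?_⟩
    have h1 : ∀ a, ∃ z : ℤ, (z : ℚ) = (b : ℤ) * q a := by
      intro a
      obtain ⟨z, hz⟩ := hb (q a) (Finset.mem_image_of_mem _ (Finset.mem_univ _))
      refine ⟨z, ?_⟩
      rw [eq_intCast] at hz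
      rw [hz, zsmul_eq_mul]
    choose n hn using h1
    exact ⟨n, hn⟩
  have hn0 : n a₀ ≠ 0 := by
    intro h0
    have h1 := hn a₀
    rw [h0, Int.cast_zero] at h1
    rcases mul_eq_zero.1 h1.symm with h2 | h2
    · exact hN0 (by exact_mod_cast h2)
    · exact ha₀ h2
  have hrel : ∀ φ : E k →+* L, ∑ a, n a * (if j.comp φ ∈ Φ k a then (1 : ℤ) else -1) = 0 := by
    intro φ
    have h1 := congrFun hq (j.comp φ)
    rw [Finset.sum_apply] at h1
    have h2 : ((∑ a, n a * (if j.comp φ ∈ Φ k a then (1 : ℤ) else -1) : ℤ) : ℚ) =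
        N * ∑ a, (q a • sgnF (Φ k a)) (j.comp φ) := by
      rw [Int.cast_sum, Finset.mul_sum]
      refine Finset.sum_congr rfl fun a _ => ?_
      rw [Int.cast_mul, hn, Pi.smul_apply, smul_eq_mul, mul_assoc]
      congr 2
      simp only [sgnF]
      split_ifs <;> simp
    rw [h1] at h2
    have h3 : ((∑ a, n a * (if j.comp φ ∈ Φ k a then (1 : ℤ) else -1) : ℤ) : ℚ) = 0 := by
      rw [h2]
      simp
    exact_mod_cast h3
  obtain ⟨φ₀, -⟩ := h k (Classical.arbitrary _)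
  let M : ∀ k, I k → ℤ := Pi.single k n
  have hM : M k = n := Pi.single_eq_same _ _
  let x₀ : Σ k, (E k →+* L) := ⟨k, φ₀⟩
  let x₁ : Σ k, (E k →+* L) := ⟨k, cbar φ₀⟩
  have hx : x₁ ≠ x₀ := fun hh => cbar_ne φ₀ (eq_of_heq (Sigma.mk.inj hh).2)
  let c : ∀ p : Σ k, I k, (Fam E I p →+* L) → ℤ := fun p φ =>
    if (⟨p.1, φ⟩ : Σ k, (E k →+* L)) = x₀ then M p.1 p.2
    else if (⟨p.1, φ⟩ : Σ k, (E k →+* L)) = x₁ then - M p.1 p.2 else 0
  have h1 := hnd c ?_ ?_ ⟨k, a₀⟩ φ₀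
  · have h2 : c ⟨k, a₀⟩ φ₀ = M k a₀ := if_pos rfl
    rw [h2, hM] at h1
    exact hn0 h1
  · rintro ⟨l, a⟩ φ
    have e1 : (⟨l, cbar φ⟩ : Σ k, (E k →+* L)) = x₀ ↔ (⟨l, φ⟩ : Σ k, (E k →+* L)) = x₁ := by
      constructor
      · intro hh
        have := congrArg (fun y : Σ k, (E k →+* L) => (⟨y.1, cbar y.2⟩ : Σ k, (E k →+* L))) hh
        simpa [x₀, x₁, cbar_cbar] using this
      · intro hh
        have := congrArg (fun y : Σ k, (E k →+* L) => (⟨y.1, cbar y.2⟩ : Σ k, (E k →+* L))) hh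
        simpa [x₀, x₁, cbar_cbar] using this
    have e2 : (⟨l, cbar φ⟩ : Σ k, (E k →+* L)) = x₁ ↔ (⟨l, φ⟩ : Σ k, (E k →+* L)) = x₀ := by
      constructor
      · intro hh
        have := congrArg (fun y : Σ k, (E k →+* L) => (⟨y.1, cbar y.2⟩ : Σ k, (E k →+* L))) hh
        simpa [x₀, x₁, cbar_cbar] using this
      · intro hh
        have := congrArg (fun y : Σ k, (E k →+* L) => (⟨y.1, cbar y.2⟩ : Σ k, (E k →+* L))) hh
        simpa [x₀, x₁, cbar_cbar] using this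
    change (if (⟨l, cbar φ⟩ : Σ k, (E k →+* L)) = x₀ then M l a
      else if (⟨l, cbar φ⟩ : Σ k, (E k →+* L)) = x₁ then - M l a else 0) =
      -(if (⟨l, φ⟩ : Σ k, (E k →+* L)) = x₀ then M l a
      else if (⟨l, φ⟩ : Σ k, (E k →+* L)) = x₁ then - M l a else 0)
    rw [if_congr e1 rfl (if_congr e2 rfl rfl)]
    by_cases h3 : (⟨l, φ⟩ : Σ k, (E k →+* L)) = x₀
    · have h4 : (⟨l, φ⟩ : Σ k, (E k →+* L)) ≠ x₁ := fun hh => hx (hh.symm.trans h3)
      rw [if_neg h4, if_pos h3, if_pos h3]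
    · by_cases h4 : (⟨l, φ⟩ : Σ k, (E k →+* L)) = x₁
      · rw [if_pos h4, if_neg h3, if_pos h4, neg_neg]
      · rw [if_neg h4, if_neg h3, if_neg h3, if_neg h4, neg_zero]
  · intro σ
    -- sum over the pairs (k, φ) first
    let f : (Σ k, (E k →+* L)) → ℤ := fun y => ∑ a : I y.1,
      (if y = x₀ then M y.1 a else if y = x₁ then - M y.1 a else 0) *
        (if j.comp (σ • y.2) ∈ Φ y.1 a then (1 : ℤ) else -1)
    have e1 : ∑ p : Σ k, I k, ∑ φ : (Fam E I p →+* L), c p φ *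
        (if j.comp (σ • φ) ∈ Φ p.1 p.2 then (1 : ℤ) else -1) = ∑ y, f y := by
      rw [Fintype.sum_sigma, Fintype.sum_sigma]
      refine Finset.sum_congr rfl fun l _ => ?_
      change ∑ a : I l, ∑ φ : E l →+* L, c ⟨l, a⟩ φ *
          (if j.comp (σ • φ) ∈ Φ l a then (1 : ℤ) else -1) =
        ∑ φ : E l →+* L, ∑ a : I l, c ⟨l, a⟩ φ *
          (if j.comp (σ • φ) ∈ Φ l a then (1 : ℤ) else -1)
      exact Finset.sum_comm
    rw [e1, Finset.sum_eq_add x₀ x₁ hx.symm (fun y _ hy => by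
      change ∑ a : I y.1, (if y = x₀ then M y.1 a else if y = x₁ then - M y.1 a else 0) * _ = 0
      refine Finset.sum_eq_zero fun a _ => ?_
      rw [if_neg hy.1, if_neg hy.2, zero_mul]) (fun hn => absurd (Finset.mem_univ _) hn)
      (fun hn => absurd (Finset.mem_univ _) hn)]
    have e2 : f x₀ = 0 := by
      have : f x₀ = ∑ a : I k, n a * (if j.comp (σ • φ₀) ∈ Φ k a then (1 : ℤ) else -1) := by
        change ∑ a : I k, (if x₀ = x₀ then M k a else _) * _ = _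
        refine Finset.sum_congr rfl fun a _ => ?_
        rw [if_pos rfl, hM]
      rw [this, hrel]
    have e3 : f x₁ = 0 := by
      have : f x₁ = - ∑ a : I k, n a * (if j.comp (σ • cbar φ₀) ∈ Φ k a then (1 : ℤ) else -1) := by
        change ∑ a : I k, (if x₁ = x₀ then M k a else if x₁ = x₁ then - M k a else 0) * _ = _
        rw [← Finset.sum_neg_distrib]
        refine Finset.sum_congr rfl fun a _ => ?_
        rw [if_neg hx, if_pos rfl, hM, neg_mul]
      rw [this, hrel, neg_zero]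
    rw [e2, e3, add_zero]

end Pool.Agent.Run7.h142.JT
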