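import Mathlib
import Pool.Agent.Run7.h142.JT.Defs
import Pool.Agent.W527.CritMain

/-!
# Primitivity of the types on fields without rigid pairs (helper142)
-/

set_option autoImplicit false

namespace Pool.Agent.Run7.h142.JT

open NumberField Module Pool.Agent.H204R3.CM Pool.Agent.H194R3.CM Pool.Agent.H977R3.CM
  Pool.Agent.W527

/-- The automorphisms of the complex numbers act transitively on the embeddings. -/
theorem exists_comp {F : Type} [Field F] [NumberField F] (φ ψ : F →+* ℂ) :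
    ∃ τ : ℂ ≃+* ℂ, (τ : ℂ →+* ℂ).comp φ = ψ := by
  obtain ⟨L, _, _, j, h⟩ := exists_galois (fun _ : Unit => F)
  obtain ⟨φ', rfl⟩ := h () φ
  obtain ⟨ψ', rfl⟩ := h () ψ
  obtain ⟨g, hg⟩ := MulAction.exists_smul_eq (L ≃ₐ[ℚ] L) φ' ψ'
  obtain ⟨τ, hτ⟩ := exists_lift' j g
  exact ⟨τ, by rw [lifts_comp j hτ, hg]⟩

theorem conj_move {F : Type} [Field F] [NumberField F] [IsCMField F] (τ : ℂ ≃+* ℂ)
    (φ : F →+* ℂ) : (τ : ℂ →+* ℂ).comp (ComplexEmbedding.conjugate φ) =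
      ComplexEmbedding.conjugate ((τ : ℂ →+* ℂ).comp φ) := by
  obtain ⟨L, _, _, j, h⟩ := exists_galois (fun _ : Unit => F)
  obtain ⟨φ', rfl⟩ := h () φ
  obtain ⟨g, hg⟩ := exists_lift j τ
  rw [← comp_cbar, lifts_comp j hg, lifts_comp j hg, ← comp_cbar]
  rfl

variable {κ : Type} {E : κ → Type} [∀ k, Field (E k)] [∀ k, NumberField (E k)]
  [∀ k, IsCMField (E k)] {I : κ → Type}

theorem primitive_of (hE : NoRigidPairs E) {Φ : ∀ k, I k → Set (E k →+* ℂ)}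
    (hΦ : ∀ k a, IsCMType (Φ k a))
    (hdist : ∀ k a b, a ≠ b → Φ k a ≠ Φ k b ∧ Φ k a ≠ (Φ k b)ᶜ) :
    Primitive (E := Fam E I) (fun p : Σ k, I k => Φ p.1 p.2) := by
  rintro ⟨⟨k, a⟩, φ⟩ ⟨⟨l, b⟩, ψ⟩ hxy
  change E k →+* ℂ at φ
  change E l →+* ℂ at ψ
  have hxy' : ∀ τ : ℂ ≃+* ℂ, (τ : ℂ →+* ℂ).comp φ ∈ Φ k a ↔ (τ : ℂ →+* ℂ).comp ψ ∈ Φ l b := hxy
  by_cases h1 : (⟨l, ψ⟩ : Σ k, (E k →+* ℂ)) = ⟨k, φ⟩
  · obtain ⟨e1, e2⟩ := Sigma.mk.inj h1
    subst e1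
    have e3 := eq_of_heq e2
    subst e3
    by_cases hab : a = b
    · subst hab
      rfl
    · exfalso
      refine (hdist l a b hab).1 ?_
      ext χ
      obtain ⟨τ, rfl⟩ := exists_comp ψ χ
      exact hxy' τ
  · by_cases h2 : (⟨l, ψ⟩ : Σ k, (E k →+* ℂ)) = ⟨k, ComplexEmbedding.conjugate φ⟩
    · exfalso
      obtain ⟨e1, e2⟩ := Sigma.mk.inj h2
      subst e1
      have e3 := eq_of_heq e2
      subst e3
      have h3 : Φ l a = (Φ l b)ᶜ := by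
        ext χ
        obtain ⟨τ, rfl⟩ := exists_comp φ χ
        rw [hxy' τ, conj_move, Set.mem_compl_iff, hΦ l b ((τ : ℂ →+* ℂ).comp φ), not_not]
      by_cases hab : a = b
      · subst hab
        obtain ⟨τ, hτ⟩ := exists_comp φ φ
        have h4 := Set.ext_iff.1 h3 φ
        rw [Set.mem_compl_iff] at h4
        tauto
      · exact (hdist l a b hab).2 h3
    · exfalso
      obtain ⟨τ, ht1, ht2⟩ := hE ⟨k, φ⟩ ⟨l, ψ⟩ h1 h2
      have ht1' : (τ : ℂ →+* ℂ).comp φ = φ := ht1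
      have ht2' : (τ : ℂ →+* ℂ).comp ψ = ComplexEmbedding.conjugate ψ := ht2
      have h3 := hxy' τ
      rw [ht1', ht2'] at h3
      have h4 := hxy' (RingEquiv.refl ℂ)
      have h5 : ∀ {F : Type} [Field F] (χ : F →+* ℂ),
          ((RingEquiv.refl ℂ : ℂ ≃+* ℂ) : ℂ →+* ℂ).comp χ = χ := by
        intro F _ χ
        ext x
        rfl
      rw [h5, h5] at h4
      have h6 := hΦ l b ψ
      tauto

end Pool.Agent.Run7.h142.JT
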