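import Mathlib
import Pool.Agent.Run7.h142.JT.Nondeg
import Pool.Agent.Run7.h142.JT.Primitive
import Pool.Agent.TH170.MF.Count
import Pool.Agent.TH170.MF.Defs

/-!
# Stable spaces of odd functions on fields without rigid pairs (helper142)
-/

set_option autoImplicit false

namespace Pool.Agent.Run7.h142.JT

open NumberField Module Pool.Agent.H204R3.CM Pool.Agent.H194R3.CM Pool.Agent.H977R3.CM
  Pool.Agent.W527 Pool.Agent.TH170.MF

variable {κ : Type} [Fintype κ] {E : κ → Type} [∀ k, Field (E k)] [∀ k, NumberField (E k)]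
  [∀ k, IsCMField (E k)]

open Classical in
/-- The difference of the characteristic functions of an embedding and its conjugate. -/
noncomputable def ee {F : Type} [Field F] (x : F →+* ℂ) : (F →+* ℂ) → ℚ :=
  fun y => (if y = x then 1 else 0) - (if y = ComplexEmbedding.conjugate x then 1 else 0)

theorem conj_conj' {F : Type} [Field F] (x : F →+* ℂ) :
    ComplexEmbedding.conjugate (ComplexEmbedding.conjugate x) = x := by
  ext a
  simp

theorem conj_ne {F : Type} [Field F] [NumberField F] [IsCMField F] (x : F →+* ℂ) :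
    ComplexEmbedding.conjugate x ≠ x := by
  obtain ⟨L, _, _, j, h⟩ := exists_galois (fun _ : Unit => F)
  obtain ⟨x, rfl⟩ := h () x
  rw [← comp_cbar]
  exact fun h => cbar_ne x (jcomp_inj j h)

theorem one_mem (hE : NoRigidPairs E) (k : κ) {S : Submodule ℚ ((E k →+* ℂ) → ℚ)}
    (hS : S ≠ ⊥) (hst : IsStable S) (hodd : IsOddSpace S) : ∃ x, ee x ∈ S := by
  classical
  obtain ⟨s, hs, hs0⟩ := Submodule.exists_mem_ne_zero_of_ne_bot hS
  obtain ⟨x, hx⟩ : ∃ x, s x ≠ 0 := by
    by_contra hcon
    push Not at hcon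
    exact hs0 (funext hcon)
  obtain ⟨L, _, _, j, hL⟩ := exists_galois E
  obtain ⟨x, rfl⟩ := hL k x
  choose τ hτ using fun g : L ≃ₐ[ℚ] L => exists_lift' j g
  let H : Finset (L ≃ₐ[ℚ] L) := Finset.univ.filter fun g => g • x = x
  let f : (E k →+* ℂ) → ℚ := ∑ g ∈ H, fun φ => s ((τ g : ℂ →+* ℂ).comp φ)
  have hf : f ∈ S := Submodule.sum_mem _ fun g _ => hst (τ g) s hs
  have hfv : ∀ y : E k →+* L, f (j.comp y) = ∑ g ∈ H, s (j.comp (g • y)) := by
    intro y
    change (∑ g ∈ H, fun φ : E k →+* ℂ => s ((τ g : ℂ →+* ℂ).comp φ)) (j.comp y) = _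
    rw [Finset.sum_apply]
    refine Finset.sum_congr rfl fun g _ => ?_
    rw [lifts_comp j (hτ g)]
  have hf1 : f (j.comp x) = H.card * s (j.comp x) := by
    rw [hfv, Finset.sum_congr rfl (g := fun _ => s (j.comp x)), Finset.sum_const, nsmul_eq_mul]
    intro g hg
    simp only [H, Finset.mem_filter, Finset.mem_univ, true_and] at hg
    rw [hg]
  have hf2 : ∀ y : E k →+* L, y ≠ x → y ≠ cbar x → f (j.comp y) = 0 := by
    intro y h1 h2
    obtain ⟨h, hh1, hh2⟩ := noRigid_L j hE ⟨k, x⟩ ⟨k, y⟩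
      (fun hh => h1 (eq_of_heq (Sigma.mk.inj hh).2)) (fun hh => h2 (eq_of_heq (Sigma.mk.inj hh).2))
    have hh1' : h • x = x := hh1
    have hh2' : h • y = cbar y := hh2
    have e1 : ∑ g ∈ H, s (j.comp ((g * h) • y)) = ∑ g ∈ H, s (j.comp (g • y)) := by
      refine Finset.sum_bij (fun g _ => g * h) ?_ ?_ ?_ ?_
      · intro g hg
        simp only [H, Finset.mem_filter, Finset.mem_univ, true_and] at hg ⊢
        rw [mul_smul, hh1', hg]
      · intro a _ b _ hab
        exact mul_right_cancel hab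
      · intro b hb
        refine ⟨b * h⁻¹, ?_, by group⟩
        simp only [H, Finset.mem_filter, Finset.mem_univ, true_and] at hb ⊢
        rw [mul_smul]
        have : h⁻¹ • x = x := by rw [inv_smul_eq_iff, hh1']
        rw [this, hb]
      · intro g _
        rfl
    have e2 : ∑ g ∈ H, s (j.comp ((g * h) • y)) = - ∑ g ∈ H, s (j.comp (g • y)) := by
      rw [← Finset.sum_neg_distrib]
      refine Finset.sum_congr rfl fun g _ => ?_
      rw [mul_smul, hh2']
      change s (j.comp (cbar (g • y))) = _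
      rw [comp_cbar, hodd s hs]
    rw [hfv]
    linarith
  have hH : (H.card : ℚ) ≠ 0 := by
    have : (1 : L ≃ₐ[ℚ] L) ∈ H := by simp [H]
    exact_mod_cast (Finset.card_pos.2 ⟨1, this⟩).ne'
  refine ⟨j.comp x, ?_⟩
  have h3 : ee (j.comp x) = (H.card * s (j.comp x))⁻¹ • f := by
    have hne : (H.card : ℚ) * s (j.comp x) ≠ 0 := mul_ne_zero hH hx
    funext y
    obtain ⟨y, rfl⟩ := hL k y
    rw [Pi.smul_apply, smul_eq_mul]
    by_cases h1 : y = x
    · subst h1
      rw [hf1, inv_mul_cancel₀ hne]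
      unfold ee
      rw [if_pos rfl, if_neg (conj_ne (j.comp y)).symm, sub_zero]
    · by_cases h2 : y = cbar x
      · subst h2
        rw [comp_cbar]
        have h4 : f (ComplexEmbedding.conjugate (j.comp x)) = - f (j.comp x) := hodd f hf _
        rw [h4, hf1, mul_neg, inv_mul_cancel₀ hne]
        unfold ee
        rw [if_neg (conj_ne (j.comp x)), if_pos rfl, zero_sub]
      · rw [hf2 y h1 h2, mul_zero]
        unfold ee
        rw [if_neg (fun h => h1 (jcomp_inj j h)), ← comp_cbar,
          if_neg (fun h => h2 (jcomp_inj j h)), sub_zero]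
  rw [h3]
  exact S.smul_mem _ hf

theorem all_mem (hE : NoRigidPairs E) (k : κ) {S : Submodule ℚ ((E k →+* ℂ) → ℚ)}
    (hS : S ≠ ⊥) (hst : IsStable S) (hodd : IsOddSpace S) (y : E k →+* ℂ) : ee y ∈ S := by
  classical
  obtain ⟨x, hx⟩ := one_mem hE k hS hst hodd
  obtain ⟨τ, hτ⟩ := exists_comp y x
  have h1 := hst τ _ hx
  have h2 : (fun φ : E k →+* ℂ => ee x ((τ : ℂ →+* ℂ).comp φ)) = ee y := by
    funext φ
    have h3 : ∀ φ' : E k →+* ℂ, (τ : ℂ →+* ℂ).comp φ = (τ : ℂ →+* ℂ).comp φ' ↔ φ = φ' := by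
      intro φ'
      constructor
      · intro h
        ext a
        exact τ.injective (RingHom.congr_fun h a)
      · rintro rfl
        rfl
    unfold ee
    rw [← hτ, ← conj_move]
    simp only [h3]
  rw [h2] at h1
  exact h1

theorem finrank_ge (hE : NoRigidPairs E) (k : κ) {S : Submodule ℚ ((E k →+* ℂ) → ℚ)}
    (hS : S ≠ ⊥) (hst : IsStable S) (hodd : IsOddSpace S) : finrank ℚ (E k) ≤ 2 * finrank ℚ S := by
  classical
  obtain ⟨T, hT⟩ := exists_transversal (c := fun φ : E k →+* ℂ => ComplexEmbedding.conjugate φ)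
    conj_conj' conj_ne
  have hcard := card_transversal (c := fun φ : E k →+* ℂ => ComplexEmbedding.conjugate φ)
    conj_conj' hT
  have h1 : LinearIndependent ℚ (fun x : T => (⟨ee x.1, all_mem hE k hS hst hodd x.1⟩ : S)) := by
    rw [Fintype.linearIndependent_iff]
    intro c hc x
    have h2 := congrArg (fun s : S => (s : (E k →+* ℂ) → ℚ) x.1) hc
    simp only [AddSubmonoidClass.coe_finsetSum, SetLike.val_smul, Finset.sum_apply, Pi.smul_apply,
      smul_eq_mul, ZeroMemClass.coe_zero, Pi.zero_apply] at h2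
    rw [Finset.sum_eq_single x] at h2
    · unfold ee at h2
      rw [if_pos rfl, if_neg (conj_ne x.1).symm] at h2
      linarith
    · intro y _ hy
      unfold ee
      rw [if_neg (fun h => hy (Subtype.ext h.symm)), if_neg, sub_zero, mul_zero]
      intro h
      have h3 := (hT y.1).1 y.2
      exact h3 (h ▸ x.2)
    · intro h
      exact absurd (Finset.mem_univ _) h
  have h2 := h1.fintype_card_le_finrank
  rw [Fintype.card_coe] at h2
  have h3 : Fintype.card (E k →+* ℂ) = finrank ℚ (E k) := Embeddings.card (E k) ℂ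
  omega

end Pool.Agent.Run7.h142.JT
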