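import Mathlib
import Pool.Agent.Run7.h142.JT.Defs

/-!
# The number of the linearly dependent tuples of CM types (helper142)
-/

set_option autoImplicit false

namespace Pool.Agent.Run7.h142.JT

open NumberField Module Pool.Agent.H204R3.CM

/-- A coset of a `d`-dimensional space of functions contains at most `2 ^ d` sign functions. -/
theorem signs_le {X : Type} [Fintype X] (d : ℕ) : ∀ (U : Submodule ℚ (X → ℚ)), finrank ℚ U ≤ d →
    ∀ v : X → ℚ, {s : X → ℚ | (∀ x, s x = 1 ∨ s x = -1) ∧ s - v ∈ U}.ncard ≤ 2 ^ d := by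
  classical
  have hfin : ∀ (U : Submodule ℚ (X → ℚ)) (v : X → ℚ),
      {s : X → ℚ | (∀ x, s x = 1 ∨ s x = -1) ∧ s - v ∈ U}.Finite := by
    intro U v
    refine Set.Finite.subset (Set.Finite.pi' (t := fun _ : X => ({1, -1} : Set ℚ))
      (fun _ => by simp)) ?_
    rintro s ⟨hs, -⟩ x
    simpa using hs x
  have hbot : ∀ v : X → ℚ,
      {s : X → ℚ | (∀ x, s x = 1 ∨ s x = -1) ∧ s - v ∈ (⊥ : Submodule ℚ (X → ℚ))}.ncard ≤ 1 := by
    intro v
    rw [Set.ncard_le_one (hfin _ _)]
    rintro a ⟨-, ha⟩ b ⟨-, hb⟩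
    rw [Submodule.mem_bot, sub_eq_zero] at ha hb
    rw [ha, hb]
  induction d with
  | zero =>
    intro U hU v
    have : U = ⊥ := Submodule.finrank_eq_zero.1 (Nat.le_zero.1 hU)
    subst this
    simpa using hbot v
  | succ d ih =>
    intro U hU v
    by_cases h0 : U = ⊥
    · subst h0
      exact (hbot v).trans Nat.one_le_two_pow
    · obtain ⟨u, hu, hu0⟩ := Submodule.exists_mem_ne_zero_of_ne_bot h0
      obtain ⟨x, hx⟩ : ∃ x, u x ≠ 0 := by
        by_contra hcon
        push Not at hcon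
        exact hu0 (funext hcon)
      let U' : Submodule ℚ (X → ℚ) := U ⊓ LinearMap.ker (LinearMap.proj x : (X → ℚ) →ₗ[ℚ] ℚ)
      have hlt : U' < U := by
        refine lt_of_le_of_ne inf_le_left fun h => ?_
        have h1 : u ∈ U' := h ▸ hu
        exact hx h1.2
      have hU' : finrank ℚ U' ≤ d := by
        have := Submodule.finrank_lt_finrank_of_lt hlt
        omega
      have hsplit : ∀ c : ℚ, ({s : X → ℚ | (∀ x, s x = 1 ∨ s x = -1) ∧ s - v ∈ U} ∩
          {s | s x = c}).ncard ≤ 2 ^ d := by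
        intro c
        rcases Set.eq_empty_or_nonempty ({s : X → ℚ | (∀ x, s x = 1 ∨ s x = -1) ∧ s - v ∈ U} ∩
          {s | s x = c}) with he | ⟨w, hw⟩
        · rw [he, Set.ncard_empty]
          exact Nat.zero_le _
        · refine (Set.ncard_le_ncard ?_ (hfin U' w)).trans (ih U' hU' w)
          rintro s ⟨⟨hs1, hs2⟩, hs3⟩
          refine ⟨hs1, ?_, ?_⟩
          · have := U.sub_mem hs2 hw.1.2
            simpa using this
          · have h1 : s x = c := hs3
            have h2 : w x = c := hw.2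
            simp [h1, h2]
      have hsub : {s : X → ℚ | (∀ x, s x = 1 ∨ s x = -1) ∧ s - v ∈ U} ⊆
          ({s : X → ℚ | (∀ x, s x = 1 ∨ s x = -1) ∧ s - v ∈ U} ∩ {s | s x = 1}) ∪
          ({s : X → ℚ | (∀ x, s x = 1 ∨ s x = -1) ∧ s - v ∈ U} ∩ {s | s x = -1}) := by
        intro s hs
        rcases hs.1 x with h1 | h1
        · exact Or.inl ⟨hs, h1⟩
        · exact Or.inr ⟨hs, h1⟩
      calc _ ≤ _ := Set.ncard_le_ncard hsub
            (((hfin U v).subset Set.inter_subset_left).union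
              ((hfin U v).subset Set.inter_subset_left))
        _ ≤ _ := Set.ncard_union_le _ _
        _ ≤ 2 ^ d + 2 ^ d := Nat.add_le_add (hsplit 1) (hsplit (-1))
        _ = 2 ^ (d + 1) := by ring

variable {F : Type} [Field F]

theorem sgnF_sign (Ψ : Set (F →+* ℂ)) (φ : F →+* ℂ) : sgnF Ψ φ = 1 ∨ sgnF Ψ φ = -1 := by
  classical
  unfold sgnF
  split_ifs <;> simp

theorem sgnF_inj {Ψ Ψ' : Set (F →+* ℂ)} (h : sgnF Ψ = sgnF Ψ') : Ψ = Ψ' := by
  classical
  ext φ
  have h1 := congrFun h φ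
  unfold sgnF at h1
  by_cases h2 : φ ∈ Ψ <;> by_cases h3 : φ ∈ Ψ' <;> simp [h2, h3] at h1 ⊢ <;> norm_num at h1

variable [NumberField F]

open Classical in
/-- The CM types whose sign functions are in `U`. -/
noncomputable def typesIn (U : Submodule ℚ ((F →+* ℂ) → ℚ)) : Finset (Set (F →+* ℂ)) :=
  Finset.univ.filter fun Ψ => IsCMType Ψ ∧ sgnF Ψ ∈ U

theorem card_typesIn (U : Submodule ℚ ((F →+* ℂ) → ℚ)) {d : ℕ} (hU : finrank ℚ U ≤ d) :
    (typesIn U).card ≤ 2 ^ d := by
  classical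
  have h1 := signs_le d U hU 0
  refine le_trans ?_ h1
  rw [← Set.ncard_coe_finset]
  refine Set.ncard_le_ncard_of_injOn sgnF ?_ (fun a _ b _ h => sgnF_inj h) ?_
  · intro Ψ hΨ
    have h2 : Ψ ∈ typesIn U := hΨ
    simp only [typesIn, Finset.mem_filter, Finset.mem_univ, true_and] at h2
    exact ⟨sgnF_sign Ψ, by simpa using h2.2⟩
  · refine Set.Finite.subset (Set.Finite.pi' (t := fun _ : F →+* ℂ => ({1, -1} : Set ℚ))
      (fun _ => by simp)) ?_
    rintro s ⟨hs, -⟩ x
    simpa using hs x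

/-- A CM type contains half of the embeddings. -/
theorem card_type {Ψ : Set (F →+* ℂ)} (hΨ : IsCMType Ψ) : 2 * Nat.card Ψ = finrank ℚ F := by
  classical
  have h1 : Nat.card Ψ = Nat.card (Ψᶜ : Set (F →+* ℂ)) := by
    refine Nat.card_congr (Equiv.ofBijective (fun φ : Ψ => (⟨ComplexEmbedding.conjugate φ.1,
      (hΨ φ.1).1 φ.2⟩ : (Ψᶜ : Set (F →+* ℂ)))) ⟨?_, ?_⟩)
    · intro φ ψ h
      have h2 := congrArg (fun y : (Ψᶜ : Set (F →+* ℂ)) => ComplexEmbedding.conjugate y.1) h
      simp only at h2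
      ext x
      have h3 := RingHom.congr_fun h2 x
      simpa using h3
    · rintro ⟨ψ, hψ⟩
      refine ⟨⟨ComplexEmbedding.conjugate ψ, ?_⟩, ?_⟩
      · by_contra hcon
        exact hψ ((hΨ ψ).2 hcon)
      · apply Subtype.ext
        ext x
        simp
  have h2 : Nat.card Ψ + Nat.card (Ψᶜ : Set (F →+* ℂ)) = Nat.card (F →+* ℂ) := by
    rw [Nat.card_coe_set_eq, Nat.card_coe_set_eq]
    exact Set.ncard_add_ncard_compl Ψ
  have h3 : Nat.card (F →+* ℂ) = finrank ℚ F := by
    rw [Nat.card_eq_fintype_card]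
    exact Embeddings.card F ℂ
  omega

open Classical in
/-- The CM types. -/
noncomputable def types (F : Type) [Field F] [NumberField F] : Finset (Set (F →+* ℂ)) :=
  Finset.univ.filter fun Ψ => IsCMType Ψ

theorem card_types {g : ℕ} (hg : finrank ℚ F = 2 * g) : (types F).card ≤ 2 ^ g := by
  classical
  rcases (types F).eq_empty_or_nonempty with he | ⟨Ψ₀, hΨ₀⟩
  · rw [he, Finset.card_empty]
    exact Nat.zero_le _
  · simp only [types, Finset.mem_filter, Finset.mem_univ, true_and] at hΨ₀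
    have h1 := card_type hΨ₀
    have h2 : Nat.card Ψ₀ = g := by omega
    have h3 : (types F).card ≤ Fintype.card (Set Ψ₀) := by
      rw [← Finset.card_univ (α := Set Ψ₀)]
      refine Finset.card_le_card_of_injOn (fun Ψ => {φ : Ψ₀ | φ.1 ∈ Ψ})
        (fun _ _ => Finset.mem_coe.2 (Finset.mem_univ _)) ?_
      intro Ψ hΨ Ψ' hΨ' h
      simp only [types, Finset.coe_filter, Finset.mem_univ, true_and, Set.mem_ofPred_eq] at hΨ hΨ'
      have hin : ∀ φ ∈ Ψ₀, φ ∈ Ψ ↔ φ ∈ Ψ' := by
        intro φ hφ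
        have := Set.ext_iff.1 h ⟨φ, hφ⟩
        simpa using this
      ext φ
      by_cases hφ : φ ∈ Ψ₀
      · exact hin φ hφ
      · have h4 : ComplexEmbedding.conjugate φ ∈ Ψ₀ := by
          by_contra hcon
          exact hφ ((hΨ₀ φ).2 hcon)
        rw [hΨ φ, hΨ' φ, hin _ h4]
    rw [Fintype.card_set, ← Nat.card_eq_fintype_card, h2] at h3
    exact h3

/-- The number of the linearly dependent `r`-tuples of CM types is at most the fraction
`(2 ^ r - 1) / 2 ^ g` of `(2 ^ g) ^ r`. -/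
theorem card_dependent {g : ℕ} (hg : finrank ℚ F = 2 * g) (r : ℕ) :
    {Φ : Fin r → Set (F →+* ℂ) | (∀ a, IsCMType (Φ a)) ∧
      ¬ LinearIndependent ℚ (fun a => sgnF (Φ a))}.ncard * 2 ^ g ≤ (2 ^ r - 1) * 2 ^ (g * r) := by
  classical
  induction r with
  | zero =>
    have : {Φ : Fin 0 → Set (F →+* ℂ) | (∀ a, IsCMType (Φ a)) ∧
      ¬ LinearIndependent ℚ (fun a => sgnF (Φ a))} = ∅ := by
      ext Φ
      simp only [Set.mem_ofPred_eq, Set.mem_empty_iff_false, iff_false, not_and, not_not]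
      intro _
      exact linearIndependent_empty_type
    rw [this]
    simp
  | succ r ih =>
    -- the two kinds of tuples
    let T : Finset (Fin r → Set (F →+* ℂ)) := Fintype.piFinset fun _ => types F
    let D : Finset (Fin r → Set (F →+* ℂ)) :=
      T.filter fun Φ => ¬ LinearIndependent ℚ (fun a => sgnF (Φ a))
    have hD : (D : Set (Fin r → Set (F →+* ℂ))) = {Φ : Fin r → Set (F →+* ℂ) |
        (∀ a, IsCMType (Φ a)) ∧ ¬ LinearIndependent ℚ (fun a => sgnF (Φ a))} := by
      ext Φ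
      simp [D, T, types]
    have hTc : T.card ≤ 2 ^ (g * r) := by
      rw [Fintype.card_piFinset, Finset.prod_const, Finset.card_univ, Fintype.card_fin, pow_mul]
      exact Nat.pow_le_pow_left (card_types hg) r
    let A : Finset (Σ _ : Fin r → Set (F →+* ℂ), Set (F →+* ℂ)) := D.sigma fun _ => types F
    let B : Finset (Σ _ : Fin r → Set (F →+* ℂ), Set (F →+* ℂ)) :=
      T.sigma fun Φ => typesIn (Submodule.span ℚ (Set.range fun a => sgnF (Φ a)))
    have hA : A.card ≤ D.card * 2 ^ g := by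
      rw [Finset.card_sigma, Finset.sum_const, smul_eq_mul]
      exact Nat.mul_le_mul_left _ (card_types hg)
    have hB : B.card ≤ 2 ^ (g * r) * 2 ^ r := by
      rw [Finset.card_sigma]
      calc _ ≤ ∑ _Φ ∈ T, 2 ^ r := by
            refine Finset.sum_le_sum fun Φ _ => card_typesIn _ ?_
            have := finrank_range_le_card (R := ℚ) (fun a => sgnF (Φ a))
            rw [Fintype.card_fin] at this
            exact this
        _ ≤ _ := by
            rw [Finset.sum_const, smul_eq_mul]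
            exact Nat.mul_le_mul_right _ hTc
    have hsub : {Φ : Fin (r + 1) → Set (F →+* ℂ) | (∀ a, IsCMType (Φ a)) ∧
        ¬ LinearIndependent ℚ (fun a => sgnF (Φ a))} ⊆
        (fun p : Σ _ : Fin r → Set (F →+* ℂ), Set (F →+* ℂ) =>
          (Fin.cons p.2 p.1 : Fin (r + 1) → Set (F →+* ℂ))) '' ((A ∪ B : Finset _) : Set _) := by
      rintro Φ ⟨h1, h2⟩
      refine ⟨⟨Fin.tail Φ, Φ 0⟩, ?_, Fin.cons_self_tail Φ⟩
      have e1 : (fun a => sgnF (Φ a)) = Fin.cons (sgnF (Φ 0)) (fun a => sgnF (Fin.tail Φ a)) := by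
        funext a
        refine Fin.cases ?_ (fun i => ?_) a
        · rw [Fin.cons_zero]
        · rw [Fin.cons_succ]
          rfl
      rw [e1, linearIndependent_finCons] at h2
      rw [Finset.coe_union]
      have hT : Fin.tail Φ ∈ T := by
        simp only [T, Fintype.mem_piFinset, types, Finset.mem_filter, Finset.mem_univ, true_and]
        exact fun a => h1 a.succ
      by_cases h3 : LinearIndependent ℚ (fun a => sgnF (Fin.tail Φ a))
      · right
        have h4 : sgnF (Φ 0) ∈ Submodule.span ℚ (Set.range fun a => sgnF (Fin.tail Φ a)) := by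
          by_contra hcon
          exact h2 ⟨h3, hcon⟩
        simp only [B, Finset.coe_sigma, Set.mem_sigma_iff, Finset.mem_coe]
        exact ⟨hT, by simp [typesIn, h1 0, h4]⟩
      · left
        simp only [A, Finset.coe_sigma, Set.mem_sigma_iff, Finset.mem_coe]
        exact ⟨by simp [D, hT, h3], by simp [types, h1 0]⟩
    have hcard : {Φ : Fin (r + 1) → Set (F →+* ℂ) | (∀ a, IsCMType (Φ a)) ∧
        ¬ LinearIndependent ℚ (fun a => sgnF (Φ a))}.ncard ≤ A.card + B.card := by
      calc _ ≤ _ := Set.ncard_le_ncard hsub ((A ∪ B).finite_toSet.image _)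
        _ ≤ _ := Set.ncard_image_le (A ∪ B).finite_toSet
        _ = (A ∪ B).card := Set.ncard_coe_finset _
        _ ≤ _ := Finset.card_union_le _ _
    have hDn : D.card * 2 ^ g ≤ (2 ^ r - 1) * 2 ^ (g * r) := by
      rw [← hD, Set.ncard_coe_finset] at ih
      exact ih
    calc _ ≤ (A.card + B.card) * 2 ^ g := Nat.mul_le_mul_right _ hcard
      _ ≤ ((2 ^ r - 1) * 2 ^ (g * r) + 2 ^ (g * r) * 2 ^ r) * 2 ^ g :=
          Nat.mul_le_mul_right _ (Nat.add_le_add (hA.trans hDn) hB)
      _ = (2 ^ (r + 1) - 1) * 2 ^ (g * (r + 1)) := by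
          have h1 : 1 ≤ 2 ^ r := Nat.one_le_two_pow
          obtain ⟨n, hn⟩ : ∃ n, 2 ^ r = n + 1 := ⟨2 ^ r - 1, by omega⟩
          have h2 : 2 ^ (r + 1) - 1 = 2 * n + 1 := by
            rw [pow_succ, hn]
            omega
          have h3 : 2 ^ (g * (r + 1)) = 2 ^ (g * r) * 2 ^ g := by rw [mul_add, mul_one, pow_add]
          rw [h2, hn, Nat.add_sub_cancel, h3]
          ring

end Pool.Agent.Run7.h142.JT
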